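import Pool.Agent.Helper23.MV.StE

/-!
# Project MV: LDP, logarithmic derivative of the principal L-functions
-/

set_option autoImplicit false

namespace Pool.Agent.Helper39.MV

open Finset
open Pool.Agent.Helper23.MV

private theorem growth_LDP (a : ℝ) (ha : 0 < a) : ∃ X0 : ℝ, 3 ≤ X0 ∧ ∀ X : ℝ, X0 ≤ X →
    4 * Real.log X ^ 5 ≤ Real.exp (a * Real.log X) ∧ 1 ≤ a * Real.log X ∧ 1 ≤ Real.log X := by
  have h1 : ∀ᶠ x : ℝ in Filter.atTop, ‖x ^ 5‖ ≤ (1 / 4) * ‖Real.exp (a * x)‖ :=
    (isLittleO_pow_exp_pos_mul_atTop 5 ha).def (by norm_num)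
  have h2 : ∀ᶠ x : ℝ in Filter.atTop, 1 ≤ a * x :=
    (Filter.tendsto_id.const_mul_atTop ha).eventually_ge_atTop 1
  have h3 : ∀ᶠ x : ℝ in Filter.atTop, 1 ≤ x := Filter.eventually_ge_atTop (1 : ℝ)
  have h4 := Real.tendsto_log_atTop.eventually (h1.and (h2.and h3))
  obtain ⟨X0, hX0⟩ := Filter.eventually_atTop.1 h4
  refine ⟨max X0 3, le_max_right _ _, fun X hX => ?_⟩
  obtain ⟨a1, a2, a3⟩ := hX0 X (le_trans (le_max_left _ _) hX)
  refine ⟨?_, a2, a3⟩
  rw [Real.norm_of_nonneg (pow_nonneg (by linarith) 5),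
    Real.norm_of_nonneg (Real.exp_pos _).le] at a1
  linarith

theorem hLdp (hT : Pool.Agent.Helper23.GK.StTfo) (hG : StGrw) (hL : StLd2) (hR : StLdr) :
    StLdp := by
  obtain ⟨A1, hA1, hR⟩ := hR
  obtain ⟨C, hC, hL⟩ := hL
  refine ⟨A1 + 2 * C, by linarith, fun κ hκ hκ1 => ?_⟩
  obtain ⟨c1, X1, hc1, hc18, hX1, hG⟩ := hG κ hκ hκ1
  obtain ⟨c2, X2, hc2, hc28, hX2, hR⟩ := hR κ hκ hκ1
  obtain ⟨r, hr⟩ : ∃ r : ℝ, r = c1 / 8 := ⟨_, rfl⟩
  have hr0 : 0 < r := by rw [hr]; positivity
  obtain ⟨X3, hX3, hg⟩ := growth_LDP (κ * r) (by positivity)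
  refine ⟨min c2 (r / 2), max (max X1 X2) X3, lt_min hc2 (by positivity), ?_, ?_, ?_⟩
  · exact le_trans (min_le_left _ _) hc28
  · exact le_trans (by linarith) (le_max_right _ _)
  intro X q _ σ t hX hq hσ1 hσ2 ht
  have hXX1 : X1 ≤ X := le_trans (le_trans (le_max_left _ _) (le_max_left _ _)) hX
  have hXX2 : X2 ≤ X := le_trans (le_trans (le_max_right _ _) (le_max_left _ _)) hX
  have hXX3 : X3 ≤ X := le_trans (le_max_right _ _) hX
  obtain ⟨g1, g2, g3⟩ := hg X hXX3
  obtain ⟨Lg, hLg⟩ : ∃ Lg : ℝ, Lg = Real.log X := ⟨_, rfl⟩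
  rw [← hLg] at g1 g2 g3 hσ1 ⊢
  have hX0 : 0 < X := by linarith
  have hLpos : 0 < Lg := by linarith
  have hinv : 0 < 1 / Lg := by positivity
  have hσ : 1 < σ := by linarith
  obtain ⟨s0, hs0⟩ : ∃ s0 : ℂ, s0 = σ + t * Complex.I := ⟨_, rfl⟩
  have hre : s0.re = σ := by rw [hs0]; simp
  have him : s0.im = t := by rw [hs0]; simp
  have hσc : σ ≤ 1 + r / 2 := hσ2.trans (by have := min_le_right c2 (r / 2); linarith)
  have hσc2 : σ ≤ 1 + c2 := hσ2.trans (by have := min_le_left c2 (r / 2); linarith)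
  have hqc2 : (q : ℝ) ≤ X ^ c2 :=
    hq.trans (Real.rpow_le_rpow_of_exponent_le (by linarith) (min_le_left _ _))
  have hqc1 : (q : ℝ) ≤ X ^ c1 :=
    hq.trans (Real.rpow_le_rpow_of_exponent_le (by linarith)
      ((min_le_right _ _).trans (by rw [hr]; linarith)))
  have hs1 : s0 ≠ 1 := fun h => by
    have := congrArg Complex.re h
    rw [hre, Complex.one_re] at this
    linarith
  have hpos : 0 ≤ (1 / (s0 - 1)).re := by
    rw [one_div, Complex.inv_re]
    refine div_nonneg ?_ (Complex.normSq_nonneg _)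
    rw [Complex.sub_re, hre, Complex.one_re]
    linarith
  rw [← hs0]
  have hκL : 0 ≤ κ * Lg := by positivity
  rcases le_or_gt 2 |t| with h2 | h2
  · have h := hR X q 1 σ t ∅ hXX2 hqc2 (by rw [← hLg]; exact hσ1) hσc2 ht (fun _ => h2) (by simp)
    rw [← hs0, ← hLg, Finset.sum_empty, sub_zero] at h
    have h3 : A1 * κ * Lg ≤ (A1 + 2 * C) * κ * Lg := by nlinarith
    linarith
  · obtain ⟨hL0, hL1⟩ := hT.2.2 q 1 s0 (by rw [hre]; exact hσ)
    rw [hre] at hL1
    obtain ⟨f, hf⟩ : ∃ f : ℂ → ℂ, f = DirichletCharacter.LFunctionTrivChar₁ q := ⟨_, rfl⟩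
    have hfd : Differentiable ℂ f := by
      rw [hf]; exact DirichletCharacter.differentiable_LFunctionTrivChar₁ q
    have hfne : ∀ s : ℂ, s ≠ 1 →
        f s = (s - 1) * DirichletCharacter.LFunction (1 : DirichletCharacter ℂ q) s := by
      intro s hs
      rw [hf, DirichletCharacter.LFunctionTrivChar₁, Function.update_of_ne hs]
    have hf1 : ‖f 1‖ ≤ 1 := by
      rw [hf, DirichletCharacter.LFunctionTrivChar₁, Function.update_self, norm_prod]
      refine Finset.prod_le_one (fun p _ => norm_nonneg _) (fun p hp => ?_)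
      have hp2 : (1 : ℝ) ≤ p := by exact_mod_cast (Nat.prime_of_mem_primeFactors hp).one_le
      have e : (1 - (p : ℂ)⁻¹) = ((1 - (p : ℝ)⁻¹ : ℝ) : ℂ) := by push_cast; rfl
      rw [e, Complex.norm_real, Real.norm_eq_abs, abs_le]
      have h1 : (p : ℝ)⁻¹ ≤ 1 := inv_le_one_of_one_le₀ hp2
      have h3 : 0 ≤ (p : ℝ)⁻¹ := by positivity
      constructor <;> linarith
    have hfs0 := hfne s0 hs1
    have hf0 : f s0 ≠ 0 := by
      rw [hfs0]; exact mul_ne_zero (sub_ne_zero.2 hs1) hL0
    -- lower bound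
    have hlow : 1 / (4 * Lg ^ 2) ≤ ‖f s0‖ := by
      rw [hfs0, norm_mul]
      have a1 : 1 / Lg ≤ ‖s0 - 1‖ := by
        have h3 := Complex.abs_re_le_norm (s0 - 1)
        rw [Complex.sub_re, hre, Complex.one_re, abs_of_pos (by linarith)] at h3
        linarith
      have a2 : 1 / (2 * Lg) ≤ ‖DirichletCharacter.LFunction (1 : DirichletCharacter ℂ q) s0‖ := by
        have hn : 0 < ‖DirichletCharacter.LFunction (1 : DirichletCharacter ℂ q) s0‖ :=
          norm_pos_iff.2 hL0
        rw [norm_inv] at hL1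
        have h3 : σ / (σ - 1) ≤ 2 * Lg := by
          rw [div_le_iff₀ (by linarith)]
          have h4 : 1 ≤ Lg * (σ - 1) := by
            have h5 : Lg * (1 / Lg) ≤ Lg * (σ - 1) :=
              mul_le_mul_of_nonneg_left (by linarith) hLpos.le
            rwa [mul_one_div_cancel hLpos.ne'] at h5
          have h6 : σ ≤ 2 := by linarith
          linarith
        rw [div_le_iff₀ (by positivity)]
        have h4 : 1 ≤ ‖DirichletCharacter.LFunction (1 : DirichletCharacter ℂ q) s0‖ * (2 * Lg) := by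
          have h5 := mul_le_mul_of_nonneg_left (hL1.trans h3) hn.le
          rwa [mul_inv_cancel₀ hn.ne'] at h5
        exact h4
      calc 1 / (4 * Lg ^ 2) ≤ 1 / Lg * (1 / (2 * Lg)) := by
            rw [div_mul_div_comm, one_mul]
            refine one_div_le_one_div_of_le (by positivity) ?_
            nlinarith
        _ ≤ _ := mul_le_mul a1 a2 (by positivity) (norm_nonneg _)
    -- upper bound on the disc
    have hup : ∀ s ∈ Metric.closedBall s0 r, ‖f s‖ ≤ Real.exp (κ * r * Lg) * Lg ^ 3 := by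
      intro s hs
      have hdist : ‖s - s0‖ ≤ r := by rwa [Metric.mem_closedBall, dist_eq_norm] at hs
      have hrs : |s.re - σ| ≤ r := by
        have h3 := Complex.abs_re_le_norm (s - s0)
        rw [Complex.sub_re, hre] at h3
        linarith
      have his : |s.im - t| ≤ r := by
        have h3 := Complex.abs_im_le_norm (s - s0)
        rw [Complex.sub_im, him] at h3
        linarith
      rw [abs_le] at hrs his
      rw [abs_lt] at h2
      have hexp1 : 1 ≤ Real.exp (κ * r * Lg) := Real.one_le_exp (by positivity)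
      have hL3 : 1 ≤ Lg ^ 3 := one_le_pow₀ g3
      by_cases h1 : s = 1
      · rw [h1]
        calc ‖f 1‖ ≤ 1 * 1 := by rw [one_mul]; exact hf1
          _ ≤ _ := mul_le_mul hexp1 hL3 zero_le_one (by positivity)
      · rw [hfne s h1]
        have hX2 : (9 : ℝ) ≤ X ^ 2 := by nlinarith
        have hn4 : ‖s - 1‖ ≤ 4 := by
          have h3 := Complex.norm_le_abs_re_add_abs_im (s - 1)
          have h4 : |(s - 1).re| ≤ 1 := by
            rw [Complex.sub_re, Complex.one_re, abs_le]
            constructor <;> linarith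
          have h5 : |(s - 1).im| ≤ 3 := by
            rw [Complex.sub_im, Complex.one_im, abs_le]
            constructor <;> linarith
          linarith
        have h3 := (hG X q 1 s hXX1 hqc1 (by linarith) (by linarith)
          (by rw [abs_le]; constructor <;> linarith)).2 h1 hn4
        refine h3.trans ?_
        rw [← hLg]
        refine mul_le_mul_of_nonneg_right ?_ (by positivity)
        rw [Real.rpow_def_of_pos hX0, ← hLg]
        refine Real.exp_le_exp.2 ?_
        have h4 : max 0 (1 - s.re) ≤ r := max_le hr0.le (by linarith)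
        have h5 : κ * max 0 (1 - s.re) ≤ κ * r := mul_le_mul_of_nonneg_left h4 hκ.le
        have h6 : Lg * (κ * max 0 (1 - s.re)) ≤ Lg * (κ * r) :=
          mul_le_mul_of_nonneg_left h5 hLpos.le
        linarith
    have hbd : ∀ s ∈ Metric.closedBall s0 r, ‖f s‖ ≤
        Real.exp (2 * (κ * r * Lg)) * ‖f s0‖ := by
      intro s hs
      refine (hup s hs).trans ?_
      have e1 : Real.exp (2 * (κ * r * Lg)) = Real.exp (κ * r * Lg) * Real.exp (κ * r * Lg) := by
        rw [← Real.exp_add]; ring_nf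
      rw [e1, mul_assoc (Real.exp (κ * r * Lg)) (Real.exp (κ * r * Lg)) ‖f s0‖]
      refine mul_le_mul_of_nonneg_left ?_ (Real.exp_pos _).le
      calc Lg ^ 3 = 4 * Lg ^ 5 * (1 / (4 * Lg ^ 2)) := by
            field_simp
        _ ≤ Real.exp (κ * r * Lg) * ‖f s0‖ :=
            mul_le_mul g1 hlow (by positivity) (Real.exp_pos _).le
    obtain ⟨Z, hZ, -, hZ2⟩ := hL f s0 r (2 * (κ * r * Lg)) hr0 (by linarith)
      hfd.differentiableOn hf0 hbd
    have hZ3 := hZ2 s0 (by rw [sub_self, norm_zero]; positivity) hf0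
    have e2 : C * (2 * (κ * r * Lg)) / r = 2 * C * κ * Lg := by
      field_simp
    rw [e2] at hZ3
    have hsum : 0 ≤ (∑ ρ ∈ Z, (analyticOrderNatAt f ρ : ℂ) / (s0 - ρ)).re := by
      rw [Complex.re_sum]
      refine Finset.sum_nonneg (fun ρ hρ => ?_)
      have hρ0 : f ρ = 0 := ((hZ ρ).1 hρ).1
      have hlt : ρ.re < σ := by
        by_contra hcon
        push Not at hcon
        have h3 : 1 < ρ.re := by linarith
        have h4 : ρ ≠ 1 := fun h => by
          rw [h, Complex.one_re] at h3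
          exact lt_irrefl _ h3
        have h5 := (hT.2.2 q 1 ρ h3).1
        rw [hfne ρ h4] at hρ0
        rcases mul_eq_zero.1 hρ0 with h6 | h6
        · exact h4 (sub_eq_zero.1 h6)
        · exact h5 h6
      have e3 : ((analyticOrderNatAt f ρ : ℂ) / (s0 - ρ)).re =
          (analyticOrderNatAt f ρ : ℝ) * ((s0 - ρ)⁻¹).re := by
        rw [div_eq_mul_inv, ← Complex.ofReal_natCast, Complex.re_ofReal_mul]
      rw [e3, Complex.inv_re]
      refine mul_nonneg (Nat.cast_nonneg _) (div_nonneg ?_ (Complex.normSq_nonneg _))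
      rw [Complex.sub_re, hre]
      linarith
    have h7 := Complex.abs_re_le_norm
      (deriv f s0 / f s0 - ∑ ρ ∈ Z, (analyticOrderNatAt f ρ : ℂ) / (s0 - ρ))
    rw [Complex.sub_re] at h7
    have h8 := abs_le.1 (h7.trans hZ3)
    have hder : deriv f s0 = (s0 - 1) *
        deriv (DirichletCharacter.LFunction (1 : DirichletCharacter ℂ q)) s0 +
        DirichletCharacter.LFunction (1 : DirichletCharacter ℂ q) s0 := by
      rw [hf]; exact DirichletCharacter.deriv_LFunctionTrivChar₁_apply_of_ne_one q hs1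
    have h9 : -(deriv (DirichletCharacter.LFunction (1 : DirichletCharacter ℂ q)) s0 /
        DirichletCharacter.LFunction (1 : DirichletCharacter ℂ q) s0) =
        1 / (s0 - 1) - deriv f s0 / f s0 := by
      have h10 : s0 - 1 ≠ 0 := sub_ne_zero.2 hs1
      rw [hder, hfs0]
      field_simp
      ring
    rw [h9, Complex.sub_re]
    have h11 : 2 * C * κ * Lg ≤ (A1 + 2 * C) * κ * Lg := by nlinarith
    linarith [h8.1]

end Pool.Agent.Helper39.MV
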